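import Pool.Agent.J4H16.DV.Stm

/-! # Project DV, (BD): Bernstein's inequality on a disc -/

set_option autoImplicit false

namespace Pool.Agent.J4H97.DV

open Set MeasureTheory Topology Filter
open TH525.AG TH525.PU Pool.Agent.J4H16.DV

/-- **(BD)** -/
theorem t_BD : Pool.Agent.J4H16.LI.S_QB → S_BD := by
  intro hQ F n M R hF hR hM hb r hr hrR p hp
  have h0 : |ev F 0| ≤ M := hb 0 (by simp; positivity)
  have hp1 : |ev F p| ≤ M := hb p (hp.trans (pow_le_pow_left₀ hr hrR 2))
  have h2 : |ev F p - ev F 0| ≤ 2 * M := (abs_sub _ _).trans (by linarith)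
  rw [mul_min_of_nonneg _ _ (by positivity : 0 ≤ 2 * M), mul_one]
  refine le_min h2 ?_
  rcases le_or_gt r (R / 2) with hr2 | hr2
  · -- polar coordinates of `p`
    set z : ℂ := ⟨p.1, p.2⟩ with hz
    set t := Complex.arg z with ht
    set s := ‖z‖ with hs
    have hc : s * Real.cos t = p.1 := Complex.norm_mul_cos_arg z
    have hsn : s * Real.sin t = p.2 := Complex.norm_mul_sin_arg z
    have hs0 : 0 ≤ s := norm_nonneg _
    have hs2 : s ^ 2 = p.1 ^ 2 + p.2 ^ 2 := by
      rw [← hc, ← hsn]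
      have := Real.cos_sq_add_sin_sq t
      nlinarith
    have hsr : s ≤ r := by
      have : s ^ 2 ≤ r ^ 2 := by rw [hs2]; exact hp
      exact abs_le_of_sq_le_sq' this hr |>.2
    have hval : ∀ ρ : ℝ, (rpoly F t).eval ρ = ev F (ρ * Real.cos t, ρ * Real.sin t) := by
      intro ρ
      rw [rpoly_eval]
      rfl
    have hq := hQ n (rpoly F t) (rpoly_deg F hF t) M R hR hM (fun x hx => by
      rw [hval]
      refine hb _ ?_
      have h1 := Real.cos_sq_add_sin_sq t
      have h3 : x ^ 2 ≤ R ^ 2 := sq_le_sq' (by linarith [neg_abs_le x, abs_le.1 hx]) (abs_le.1 hx).2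
      nlinarith)
    have hd : ∀ x ∈ Icc (0 : ℝ) s, HasDerivWithinAt (fun x => (rpoly F t).eval x)
        ((rpoly F t).derivative.eval x) (Icc 0 s) x := fun x _ =>
      ((rpoly F t).hasDerivAt x).hasDerivWithinAt
    have hmv := (convex_Icc (0 : ℝ) s).norm_image_sub_le_of_norm_hasDerivWithin_le (C := 2 * n * M / R) hd
      (fun x hx => by
        rw [Real.norm_eq_abs]
        refine hq x ?_
        rw [abs_of_nonneg hx.1]
        exact hx.2.trans (hsr.trans hr2)) (left_mem_Icc.2 hs0) (right_mem_Icc.2 hs0)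
    simp only [hval, zero_mul] at hmv
    rw [hc, hsn, Real.norm_eq_abs, Real.norm_eq_abs, sub_zero, abs_of_nonneg hs0] at hmv
    have hp' : ((p.1, p.2) : ℝ × ℝ) = p := rfl
    have h00 : ((0, 0) : ℝ × ℝ) = 0 := rfl
    rw [hp', h00] at hmv
    refine hmv.trans ?_
    have hn : (0 : ℝ) ≤ n := Nat.cast_nonneg n
    calc 2 * n * M / R * s ≤ 2 * n * M / R * r := mul_le_mul_of_nonneg_left hsr (by positivity)
      _ = M * n * r / R * 2 := by ring
      _ ≤ M * n * r / R * 2 + (M * n * r / R * 2 + 4 * M * r / R) := by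
          have : 0 ≤ M * n * r / R * 2 + 4 * M * r / R := by positivity
          linarith
      _ = 2 * M * (2 * (n + 1) * r / R) := by ring
  · have hn : (0 : ℝ) ≤ n := Nat.cast_nonneg n
    have h3 : 1 ≤ 2 * (n + 1) * r / R := by
      rw [le_div_iff₀ hR]
      nlinarith
    refine h2.trans ?_
    have := mul_le_mul_of_nonneg_left h3 (by positivity : 0 ≤ 2 * M)
    linarith

end Pool.Agent.J4H97.DV
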