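import Pool.Agent.J4H16.DV.Stm

/-! # Project DV, (CON) and (CO1): cones on a ray -/

set_option autoImplicit false

namespace Pool.Agent.J4H97.DV

open Set MeasureTheory Topology Filter
open TH525.AG Pool.Agent.J4H16.DV

/-- the values on the ray -/
noncomputable def ray (F : MvPolynomial (Fin 2) ℝ) (t ρ : ℝ) : ℝ := ev F (ρ * Real.cos t, ρ * Real.sin t)

theorem ray_cont (F : MvPolynomial (Fin 2) ℝ) (t : ℝ) : Continuous (ray F t) := by
  unfold ray
  exact (ev_cont F).comp ((continuous_id.mul continuous_const).prodMk (continuous_id.mul continuous_const))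

theorem ray_exp (F : MvPolynomial (Fin 2) ℝ) (t x : ℝ) : ray F t (Real.exp x) = ev F (pt t x) := rfl

/-- the cone as an integral over the ray -/
theorem cone_eq (F : MvPolynomial (Fin 2) ℝ) (t x : ℝ) :
    cone F (pt t x) * Real.exp (2 * x) = ∫ ρ in (0 : ℝ)..Real.exp x, ρ * ray F t ρ := by
  have hE : Real.exp x ≠ 0 := (Real.exp_pos x).ne'
  have h1 := intervalIntegral.integral_comp_mul_left (a := 0) (b := 1) (fun ρ : ℝ => ρ * ray F t ρ) hE
  simp only [mul_zero, mul_one, smul_eq_mul] at h1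
  have h2 : ∫ τ in (0 : ℝ)..1, Real.exp x * τ * ray F t (Real.exp x * τ) = Real.exp x * cone F (pt t x) := by
    unfold cone
    rw [← intervalIntegral.integral_const_mul]
    congr 1
    funext τ
    unfold ray pt
    simp only
    rw [show Real.exp x * τ * Real.cos t = τ * (Real.exp x * Real.cos t) by ring,
      show Real.exp x * τ * Real.sin t = τ * (Real.exp x * Real.sin t) by ring]
    ring
  rw [h2] at h1
  have h3 : Real.exp (2 * x) = Real.exp x * Real.exp x := by
    rw [← Real.exp_add]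
    congr 1
    ring
  rw [h3]
  calc cone F (pt t x) * (Real.exp x * Real.exp x) = Real.exp x * (Real.exp x * cone F (pt t x)) := by ring
    _ = Real.exp x * ((Real.exp x)⁻¹ * ∫ ρ in (0 : ℝ)..Real.exp x, ρ * ray F t ρ) := by rw [h1]
    _ = _ := by rw [← mul_assoc, mul_inv_cancel₀ hE, one_mul]

theorem cone_sub (F : MvPolynomial (Fin 2) ℝ) (c t x : ℝ) :
    (cone F (pt t x) - c / 2) * Real.exp (2 * x) =
      ∫ ρ in (0 : ℝ)..Real.exp x, ρ * (ray F t ρ - c) := by
  have h3 : Real.exp (2 * x) = Real.exp x * Real.exp x := by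
    rw [← Real.exp_add]
    congr 1
    ring
  have i1 : IntervalIntegrable (fun ρ => ρ * ray F t ρ) volume 0 (Real.exp x) :=
    (continuous_id.mul (ray_cont F t)).intervalIntegrable _ _
  have i2 : IntervalIntegrable (fun ρ : ℝ => c * ρ) volume 0 (Real.exp x) :=
    (continuous_const.mul continuous_id).intervalIntegrable _ _
  have e : (fun ρ => ρ * (ray F t ρ - c)) = fun ρ => ρ * ray F t ρ - c * ρ := by
    funext ρ
    ring
  rw [e, intervalIntegral.integral_sub i1 i2, ← cone_eq, intervalIntegral.integral_const_mul, integral_id, h3]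
  ring

/-- bound of the integral -/
theorem int_bd (F : MvPolynomial (Fin 2) ℝ) (c m t A B : ℝ) (hA : 0 ≤ A) (hAB : A ≤ B)
    (h : ∀ ρ ∈ Ioc A B, |ray F t ρ - c| ≤ m) :
    |∫ ρ in A..B, ρ * (ray F t ρ - c)| ≤ m / 2 * (B ^ 2 - A ^ 2) := by
  have h1 : ‖∫ ρ in A..B, ρ * (ray F t ρ - c)‖ ≤ ∫ ρ in A..B, m * ρ := by
    refine intervalIntegral.norm_integral_le_of_norm_le hAB (Eventually.of_forall fun ρ hρ => ?_)
      ((continuous_const.mul continuous_id).intervalIntegrable _ _)
    have hρ0 : 0 ≤ ρ := hA.trans hρ.1.le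
    rw [Real.norm_eq_abs, abs_mul, abs_of_nonneg hρ0, mul_comm]
    exact mul_le_mul_of_nonneg_right (h ρ hρ) hρ0
  rw [Real.norm_eq_abs] at h1
  refine h1.trans (le_of_eq ?_)
  rw [intervalIntegral.integral_const_mul, integral_id]
  ring

theorem exp_two (x : ℝ) : Real.exp (2 * x) = Real.exp x ^ 2 := by
  rw [pow_two, ← Real.exp_add]
  congr 1
  ring

/-- **(CON)** -/
theorem t_CON : S_CON := by
  intro F c m t x₁ x₂ hx h
  rw [cone_sub, cone_sub]
  have hi : ∀ a b : ℝ, IntervalIntegrable (fun ρ => ρ * (ray F t ρ - c)) volume a b := fun a b =>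
    (continuous_id.mul ((ray_cont F t).sub continuous_const)).intervalIntegrable _ _
  rw [intervalIntegral.integral_interval_sub_left (hi _ _) (hi _ _), exp_two, exp_two]
  refine int_bd F c m t _ _ (Real.exp_pos _).le (Real.exp_le_exp.2 hx) fun ρ hρ => ?_
  have hρ0 : 0 < ρ := (Real.exp_pos _).trans hρ.1
  have := h (Real.log ρ) ⟨((Real.lt_log_iff_exp_lt hρ0).2 hρ.1).le, (Real.log_le_iff_le_exp hρ0).2 hρ.2⟩
  rwa [← ray_exp, Real.exp_log hρ0] at this

/-- **(CO1)** -/
theorem t_CO1 : S_CO1 := by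
  intro F c m t x h
  rw [cone_sub, exp_two]
  have := int_bd F c m t 0 (Real.exp x) le_rfl (Real.exp_pos _).le fun ρ hρ => by
    have hρ0 : 0 < ρ := hρ.1
    have := h (Real.log ρ) ((Real.log_le_iff_le_exp hρ0).2 hρ.2)
    rwa [← ray_exp, Real.exp_log hρ0] at this
  refine this.trans (le_of_eq ?_)
  ring

end Pool.Agent.J4H97.DV
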